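import Mathlib

/-!
# A perfectoid field and its tilt; approximation of projective varieties: definitions
-/

open MvPolynomial

namespace Pool.Agent.Y129.TA

/-- An algebraically closed perfectoid field `K` of characteristic `0` with its tilt `F = K♭`: absolute
values and the map `x ↦ x♯` from `F` to `K`. -/
structure TiltPair (p : ℕ) (K F : Type) [Field K] [Field F] where
  absK : AbsoluteValue K ℝ
  absF : AbsoluteValue F ℝ
  ultraK : ∀ x y, absK (x + y) ≤ max (absK x) (absK y)
  ultraF : ∀ x y, absF (x + y) ≤ max (absF x) (absF y)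
  p_ne : (p : K) ≠ 0
  p_lt : absK p < 1
  sharp : F →* K
  surj : Function.Surjective sharp
  abs_sharp : ∀ x, absK (sharp x) = absF x

variable {p : ℕ} {K F : Type} [Field K] [Field F]

/-- The ring of integers of `F`. -/
def TiltPair.O (T : TiltPair p K F) : Subring F where
  carrier := {x | T.absF x ≤ 1}
  mul_mem' {a b} ha hb := by
    change T.absF (a * b) ≤ 1
    rw [map_mul]
    exact mul_le_one₀ ha (T.absF.nonneg b) hb
  one_mem' := by
    change T.absF 1 ≤ 1
    rw [map_one]
  add_mem' {a b} ha hb := (T.ultraF a b).trans (max_le ha hb)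
  zero_mem' := by
    change T.absF 0 ≤ 1
    rw [map_zero]
    exact zero_le_one
  neg_mem' {a} ha := by
    change T.absF (-a) ≤ 1
    rw [AbsoluteValue.map_neg]
    exact ha

/-- The map `θ` of Fontaine from the ring of Witt vectors of the ring of integers of `F` to `K`. -/
structure Tilting (p : ℕ) [Fact p.Prime] (K F : Type) [Field K] [Field F] extends
    TiltPair p K F where
  θ : WittVector p toTiltPair.O →+* K
  θ_teich : ∀ x : toTiltPair.O, θ (WittVector.teichmuller p x) = sharp x
  θ_le : ∀ x, absK (θ x) ≤ 1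
  θ_surj : ∀ y, absK y ≤ 1 → ∃ x, θ x = y

/-- The point `y` of `F^ι` satisfies `|P(y♯)| ≤ ε ‖y‖ ^ D`, where `‖y‖` is the maximum of the absolute
values of the coordinates. -/
def TiltPair.InTube {ι : Type} (T : TiltPair p K F) (P : MvPolynomial ι K) (D : ℕ) (ε : ℝ)
    (y : ι → F) : Prop :=
  ∀ B : ℝ, (∀ i, T.absF (y i) ≤ B) → T.absK (eval (fun i => T.sharp (y i)) P) ≤ ε * B ^ D

/-- `Y` is a Zariski closed cone (the cone over a closed subset of projective space). -/
def IsClosedCone {F ι : Type} [Field F] (Y : Set (ι → F)) : Prop :=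
  (∃ J : Ideal (MvPolynomial ι F), Y = zeroLocus F J) ∧ ∀ a : F, ∀ y ∈ Y, a • y ∈ Y

/-- The polynomial `q` is homogeneous of positive degree. -/
def IsForm {F ι : Type} [Field F] (q : MvPolynomial ι F) : Prop :=
  ∃ D, 0 < D ∧ q.IsHomogeneous D

/-- The dimension of the closed subset of projective space is at least `d`: any `d` forms have a common
zero on it. -/
def DimGE {F ι : Type} [Field F] (Y : Set (ι → F)) (d : ℕ) : Prop :=
  ∀ q : Fin d → MvPolynomial ι F, (∀ j, IsForm (q j)) → ∃ y ∈ Y, y ≠ 0 ∧ ∀ j, eval y (q j) = 0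

/-- The dimension of the closed subset of projective space is at most `d`: some `d + 1` forms have no
common zero on it. -/
def DimLE {F ι : Type} [Field F] (Y : Set (ι → F)) (d : ℕ) : Prop :=
  ∃ q : Fin (d + 1) → MvPolynomial ι F, (∀ j, IsForm (q j)) ∧
    ∀ y ∈ Y, (∀ j, eval y (q j) = 0) → y = 0

/-- The preimage of every neighbourhood of `X` under `π` contains a closed subset of dimension `d`: for
all homogeneous polynomials `P 1, ..., P r` of degrees `D 1, ..., D r` which vanish on `X` and all `ε > 0`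
there is a closed `Y` of dimension `d` with `|P k (y♯)| ≤ ε ‖y‖ ^ D k` for all `y` in `Y` and all `k`. -/
def TiltPair.Approximable {ι : Type} (T : TiltPair p K F) (X : Set (ι → K)) (d : ℕ) : Prop :=
  ∀ (r : ℕ) (P : Fin r → MvPolynomial ι K) (D : Fin r → ℕ), (∀ k, (P k).IsHomogeneous (D k)) →
    (∀ k, ∀ x ∈ X, eval x (P k) = 0) → ∀ ε : ℝ, 0 < ε →
      ∃ Y : Set (ι → F), IsClosedCone Y ∧ DimGE Y d ∧ DimLE Y d ∧
        ∀ y ∈ Y, ∀ k, T.InTube (P k) (D k) ε y

/-- The image under `f` of the set of the common zeros of the `h j`. -/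
def imageOf {F α ι κ : Type} [Field F] (h : κ → MvPolynomial α F) (f : ι → MvPolynomial α F) :
    Set (ι → F) :=
  {x | ∃ z : α → F, (∀ j, eval z (h j) = 0) ∧ ∀ i, x i = eval z (f i)}

end Pool.Agent.Y129.TA
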