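import Pool.Agent.H88.L.Y129.TA.Zeros

/-!
# The image of a closed cone under a finite homogeneous map is closed
-/

open MvPolynomial

set_option linter.unusedSectionVars false

namespace Pool.Agent.Y129.TA

section

variable {F : Type} [Field F] [IsAlgClosed F] {τ ι κ : Type} [Finite τ] [Finite ι] [Finite κ]

attribute [local instance] MvPolynomial.gradedAlgebra

theorem span_isHomogeneous (G : κ → MvPolynomial τ F) (D : κ → ℕ)
    (hG : ∀ k, (G k).IsHomogeneous (D k)) :
    (Ideal.span (Set.range G)).IsHomogeneous (homogeneousSubmodule τ F) := by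
  refine Ideal.homogeneous_span _ _ ?_
  rintro _ ⟨k, rfl⟩
  exact ⟨D k, hG k⟩

theorem component_mul {e n : ℕ} {a b : MvPolynomial τ F} (hb : b.IsHomogeneous e) :
    homogeneousComponent n (a * b) = if e ≤ n then homogeneousComponent (n - e) a * b else 0 := by
  have h := DirectSum.coe_decompose_mul_of_right_mem (homogeneousSubmodule τ F) n
    (a := a) (b := b) (i := e) hb
  have h1 : ∀ (f : MvPolynomial τ F) (m : ℕ),
      ((DirectSum.decompose (homogeneousSubmodule τ F) f m : homogeneousSubmodule τ F m) :
        MvPolynomial τ F) = homogeneousComponent m f := fun f m =>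
    decomposition.decompose'_apply f m
  rw [h1, h1] at h
  exact h

theorem mem_pow_of_homogeneous {f : MvPolynomial τ F} {L : ℕ} (hf : f.IsHomogeneous L) :
    f ∈ (Ideal.span (Set.range (X : τ → MvPolynomial τ F))) ^ L := by
  classical
  have : Fintype τ := Fintype.ofFinite τ
  rw [← support_sum_monomial_coeff f]
  refine Ideal.sum_mem _ fun α hα => ?_
  have h1 : ∑ i, α i = L := sum_of_homogeneous hf hα
  have h2 : monomial α (coeff α f) = C (coeff α f) * ∏ i, (X i : MvPolynomial τ F) ^ α i := by
    rw [monomial_eq, Finsupp.prod_fintype _ _ (by simp)]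
  rw [h2, ← h1, ← Finset.prod_pow_eq_pow_sum]
  refine Ideal.mul_mem_left _ _ (Ideal.prod_mem_prod fun i _ => ?_)
  exact Ideal.pow_mem_pow (Ideal.subset_span (Set.mem_range_self i)) _

/-- The image of the cone defined by the `G k` under the map `u` is closed. -/
theorem image_closed (G : κ → MvPolynomial τ F) (D : κ → ℕ) (hD : ∀ k, 0 < D k)
    (hG : ∀ k, (G k).IsHomogeneous (D k)) (u : ι → MvPolynomial τ F) {e : ℕ} (he : 0 < e)
    (hu : ∀ i, (u i).IsHomogeneous e)
    (h0 : ∀ w : τ → F, (∀ k, eval w (G k) = 0) → (∀ i, eval w (u i) = 0) → w = 0) :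
    ∃ J : Ideal (MvPolynomial ι F),
      {x : ι → F | ∃ w : τ → F, (∀ k, eval w (G k) = 0) ∧ ∀ i, x i = eval w (u i)} =
        zeroLocus F J := by
  classical
  have : Fintype τ := Fintype.ofFinite τ
  have : Fintype ι := Fintype.ofFinite ι
  set I : Ideal (MvPolynomial τ F) := Ideal.span (Set.range G) with hI
  let mk : MvPolynomial τ F →ₐ[F] (MvPolynomial τ F ⧸ I) := Ideal.Quotient.mkₐ F I
  let φ : MvPolynomial ι F →ₐ[F] (MvPolynomial τ F ⧸ I) := aeval fun i => mk (u i)
  letI : Algebra (MvPolynomial ι F) (MvPolynomial τ F ⧸ I) := φ.toRingHom.toAlgebra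
  have hsm : ∀ (r : MvPolynomial ι F) (a : MvPolynomial τ F ⧸ I), r • a = φ r * a :=
    fun r a => Algebra.smul_def r a
  -- a power of the irrelevant ideal
  set U : Ideal (MvPolynomial τ F) := Ideal.span (Set.range u) with hU
  obtain ⟨L, hL0, hL⟩ : ∃ L : ℕ, 0 < L ∧
      (Ideal.span (Set.range (X : τ → MvPolynomial τ F))) ^ L ≤ I ⊔ U := by
    have h1 : Ideal.span (Set.range (X : τ → MvPolynomial τ F)) ≤ (I ⊔ U).radical := by
      rw [Ideal.span_le]
      rintro _ ⟨i, rfl⟩
      rw [SetLike.mem_coe, ← vanishingIdeal_zeroLocus_eq_radical (K := F), mem_vanishingIdeal_iff]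
      intro w hw
      rw [mem_zeroLocus_iff] at hw
      have hw0 : w = 0 := by
        refine h0 w (fun k => ?_) fun i => ?_
        · have h2 := hw (G k) (Ideal.mem_sup_left (Ideal.subset_span ⟨k, rfl⟩))
          rwa [aeval_eq_eval] at h2
        · have h2 := hw (u i) (Ideal.mem_sup_right (Ideal.subset_span ⟨i, rfl⟩))
          rwa [aeval_eq_eval] at h2
      rw [aeval_X, hw0]
      rfl
    obtain ⟨L, hL⟩ := Ideal.exists_pow_le_of_le_radical_of_fg h1
      ⟨(Set.finite_range (X : τ → MvPolynomial τ F)).toFinset, by simp⟩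
    exact ⟨L + 1, Nat.succ_pos L, (Ideal.pow_le_pow_right (Nat.le_succ L)).trans hL⟩
  -- the module generated by the monomials of degree less than `L`
  let M : Submodule (MvPolynomial ι F) (MvPolynomial τ F ⧸ I) :=
    Submodule.span _ {a | ∃ α : τ →₀ ℕ, α.degree < L ∧ a = mk (monomial α 1)}
  have hCM : ∀ (c : F) (a : MvPolynomial τ F ⧸ I), a ∈ M → mk (C c) * a ∈ M := by
    intro c a ha
    have h1 : mk (C c) * a = (C c : MvPolynomial ι F) • a := by
      rw [hsm]
      congr 1
      change _ = aeval _ (C c)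
      rw [aeval_C]
      rfl
    rw [h1]
    exact M.smul_mem _ ha
  have hlow : ∀ (f : MvPolynomial τ F) (m : ℕ), m < L → f.IsHomogeneous m → mk f ∈ M := by
    intro f m hm hf
    rw [← support_sum_monomial_coeff f, map_sum]
    refine Submodule.sum_mem _ fun α hα => ?_
    have h1 : monomial α (coeff α f) = C (coeff α f) * monomial α 1 := by
      rw [C_mul_monomial, mul_one]
    rw [h1, map_mul]
    refine hCM _ _ (Submodule.subset_span ⟨α, ?_, rfl⟩)
    have h2 : ∑ i, α i = m := sum_of_homogeneous hf hα
    have h3 : α.degree = ∑ i, α i := by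
      rw [Finsupp.degree_apply]
      exact Finset.sum_subset (Finset.subset_univ _) (by simp)
    omega
  have htop : ∀ f : MvPolynomial τ F, f.IsHomogeneous L → mk f ∈ M := by
    intro f hf
    have h1 := hL (mem_pow_of_homogeneous hf)
    obtain ⟨b, hb, a, ha, hba⟩ := Submodule.mem_sup.1 h1
    obtain ⟨c, hc⟩ := (Ideal.mem_span_range_iff_exists_fun).1 ha
    have h2 : f = homogeneousComponent L b + ∑ i, homogeneousComponent L (c i * u i) := by
      rw [← map_sum, hc, ← map_add, hba, homogeneousComponent_eq_self hf]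
    have h3 : mk (homogeneousComponent L b) = 0 :=
      Ideal.Quotient.eq_zero_iff_mem.2
        (homogeneousComponent_mem_of_mem (span_isHomogeneous G D hG) hb L)
    rw [h2, map_add, h3, zero_add, map_sum]
    refine Submodule.sum_mem _ fun i _ => ?_
    rw [component_mul (hu i)]
    split_ifs with h4
    · have h5 : mk (homogeneousComponent (L - e) (c i) * u i) =
          (X i : MvPolynomial ι F) • mk (homogeneousComponent (L - e) (c i)) := by
        rw [hsm, map_mul, mul_comm]
        congr 1
        change _ = aeval _ (X i)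
        rw [aeval_X]
      rw [h5]
      exact M.smul_mem _ (hlow _ (L - e) (by omega) (homogeneousComponent_isHomogeneous _ _))
    · rw [map_zero]
      exact M.zero_mem
  have hX : ∀ (j : τ) (a : MvPolynomial τ F ⧸ I), a ∈ M → mk (X j) * a ∈ M := by
    intro j a ha
    induction ha using Submodule.span_induction with
    | mem a ha =>
      obtain ⟨α, hα, rfl⟩ := ha
      rw [← map_mul]
      have h1 : (X j * monomial α 1 : MvPolynomial τ F).IsHomogeneous (1 + α.degree) :=
        (isHomogeneous_X F j).mul (isHomogeneous_monomial _ rfl)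
      rcases Nat.lt_or_ge (1 + α.degree) L with h2 | h2
      · exact hlow _ _ h2 h1
      · have h3 : 1 + α.degree = L := by omega
        rw [h3] at h1
        exact htop _ h1
    | zero => rw [mul_zero]; exact M.zero_mem
    | add a b _ _ ha hb => rw [mul_add]; exact M.add_mem ha hb
    | smul r a _ ha =>
      rw [hsm, mul_left_comm, ← hsm]
      exact M.smul_mem _ ha
  have hall : ∀ f : MvPolynomial τ F, mk f ∈ M := by
    intro f
    have h1 : (1 : MvPolynomial τ F ⧸ I) ∈ M := by
      have h2 := hlow 1 0 hL0 (isHomogeneous_one _ _)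
      rwa [map_one] at h2
    induction f using MvPolynomial.induction_on with
    | C c =>
      have h2 := hCM c 1 h1
      rwa [mul_one] at h2
    | add f g hf hg => rw [map_add]; exact M.add_mem hf hg
    | mul_X f j hf => rw [map_mul, mul_comm]; exact hX j _ hf
  have hfin : Module.Finite (MvPolynomial ι F) (MvPolynomial τ F ⧸ I) := by
    refine ⟨Submodule.fg_def.2 ⟨{a | ∃ α : τ →₀ ℕ, α.degree < L ∧ a = mk (monomial α 1)}, ?_, ?_⟩⟩
    · have h1 : {a | ∃ α : τ →₀ ℕ, α.degree < L ∧ a = mk (monomial α 1)} =
          (fun α : τ →₀ ℕ => mk (monomial α 1)) '' {α | α.degree < L} := by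
        ext a
        constructor
        · rintro ⟨α, h, rfl⟩
          exact ⟨α, h, rfl⟩
        · rintro ⟨α, h, rfl⟩
          exact ⟨α, h, rfl⟩
      rw [h1]
      refine Set.Finite.image _ ((Finsupp.finite_of_degree_le L).subset fun α hα => ?_)
      exact (show α.degree < L from hα).le
    · rw [eq_top_iff]
      rintro a -
      obtain ⟨f, rfl⟩ := Ideal.Quotient.mk_surjective a
      exact hall f
  have hint : Algebra.IsIntegral (MvPolynomial ι F) (MvPolynomial τ F ⧸ I) := inferInstance
  refine ⟨RingHom.ker (algebraMap (MvPolynomial ι F) (MvPolynomial τ F ⧸ I)), ?_⟩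
  ext x
  constructor
  · rintro ⟨w, hw, hx⟩
    rw [mem_zeroLocus_iff]
    intro f hf
    have h1 : φ f = 0 := hf
    have h2 : φ f = mk (aeval u f) := by
      have h9 : φ = mk.comp (aeval u) := by
        ext i
        change aeval (fun i => mk (u i)) (X i) = mk (aeval u (X i))
        rw [aeval_X, aeval_X]
      rw [h9]
      rfl
    rw [h2] at h1
    have h3 : aeval u f ∈ I := Ideal.Quotient.eq_zero_iff_mem.1 h1
    have h4 : I ≤ RingHom.ker (eval w) := by
      rw [hI, Ideal.span_le]
      rintro _ ⟨k, rfl⟩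
      exact hw k
    have h5 : eval w (aeval u f) = 0 := h4 h3
    have h6 : x = fun i => eval w (u i) := funext hx
    rw [aeval_eq_eval, h6]
    have h7 : eval w (aeval u f) = eval (fun i => eval w (u i)) f := by
      have h8 : ((eval w).comp (aeval u : MvPolynomial ι F →ₐ[F] MvPolynomial τ F).toRingHom) =
          eval (fun i => eval w (u i)) := by
        ext i <;> simp
      exact congrArg (fun ψ : MvPolynomial ι F →+* F => ψ f) h8
    exact h7.symm.trans h5
  · intro hx
    rw [mem_zeroLocus_iff] at hx
    have hP : (vanishingIdeal F {x} : Ideal (MvPolynomial ι F)).IsMaximal :=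
      isMaximal_iff_eq_vanishingIdeal_singleton.2 ⟨x, rfl⟩
    obtain ⟨Q, hQ, hQP⟩ := Ideal.exists_ideal_over_maximal_of_isIntegral
      (S := MvPolynomial τ F ⧸ I) (vanishingIdeal F {x} : Ideal (MvPolynomial ι F))
      (fun f hf => (mem_vanishingIdeal_singleton_iff _ _).2 (hx f hf))
    have hQ' : (Q.comap (Ideal.Quotient.mk I)).IsMaximal :=
      Ideal.comap_isMaximal_of_surjective _ Ideal.Quotient.mk_surjective
    obtain ⟨w, hw⟩ := isMaximal_iff_eq_vanishingIdeal_singleton.1 hQ'
    have hmem : ∀ f : MvPolynomial τ F, mk f ∈ Q → eval w f = 0 := by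
      intro f hf
      have h1 : f ∈ Q.comap (Ideal.Quotient.mk I) := hf
      rw [hw, mem_vanishingIdeal_singleton_iff, aeval_eq_eval] at h1
      exact h1
    refine ⟨w, fun k => hmem _ ?_, fun i => ?_⟩
    · have h1 : mk (G k) = 0 := Ideal.Quotient.eq_zero_iff_mem.2 (Ideal.subset_span ⟨k, rfl⟩)
      rw [h1]
      exact Q.zero_mem
    · have h1 : (X i - C (x i) : MvPolynomial ι F) ∈
          Q.comap (algebraMap (MvPolynomial ι F) (MvPolynomial τ F ⧸ I)) := by
        rw [hQP, mem_vanishingIdeal_singleton_iff, aeval_eq_eval]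
        simp
      have h2 : mk (u i - C (x i)) ∈ Q := by
        have h3 : φ (X i - C (x i)) ∈ Q := h1
        have h4 : φ (X i - C (x i)) = mk (u i - C (x i)) := by
          change aeval (fun i => mk (u i)) (X i - C (x i)) = _
          rw [map_sub, map_sub, aeval_X, aeval_C]
          rfl
        rwa [h4] at h3
      have h3 := hmem _ h2
      rw [map_sub, eval_C] at h3
      exact (sub_eq_zero.1 h3).symm

end

end Pool.Agent.Y129.TA
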