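import Pool.Agent.H88.L.Y129.TA.Image

/-!
# Approximation of images of complete intersections
-/

open MvPolynomial

set_option linter.unusedSectionVars false

namespace Pool.Agent.Y129.TA

theorem exists_pos_le {t : Type} [Finite t] (f : t → ℝ) (h : ∀ i, 0 < f i) :
    ∃ δ : ℝ, 0 < δ ∧ ∀ i, δ ≤ f i := by
  cases nonempty_fintype t
  rcases isEmpty_or_nonempty t with he | hne
  · exact ⟨1, one_pos, fun i => he.elim i⟩
  · obtain ⟨i, hi⟩ := Finite.exists_min f
    exact ⟨f i, h i, hi⟩

section General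

variable {F : Type} [Field F] {α ι κ : Type} [Fintype α] [Fintype ι] [Fintype κ]

/-- The polynomial `P(y^e)` in the variables `(z, y)`. -/
noncomputable def pull (α : Type) (e : ℕ) (P : MvPolynomial ι F) : MvPolynomial (α ⊕ ι) F :=
  aeval (fun i => (X (Sum.inr i) : MvPolynomial (α ⊕ ι) F) ^ e) P

theorem eval_pull (e : ℕ) (P : MvPolynomial ι F) (w : α ⊕ ι → F) :
    eval w (pull α e P) = eval (fun i => w (Sum.inr i) ^ e) P := by
  have h : ((eval w).comp (aeval (fun i => (X (Sum.inr i) : MvPolynomial (α ⊕ ι) F) ^ e) :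
      MvPolynomial ι F →ₐ[F] MvPolynomial (α ⊕ ι) F).toRingHom) =
        eval (fun i => w (Sum.inr i) ^ e) := by
    ext i <;> simp
  exact congrArg (fun ψ : MvPolynomial ι F →+* F => ψ P) h

theorem form_comp {τ : Type} {P : MvPolynomial ι F} (hP : IsForm P) {e : ℕ} (he : 0 < e)
    {u : ι → MvPolynomial τ F} (hu : ∀ i, (u i).IsHomogeneous e) : IsForm (aeval u P) := by
  obtain ⟨D, hD, hPD⟩ := hP
  exact ⟨e * D, Nat.mul_pos he hD, hPD.aeval u hu⟩

theorem form_zero {P : MvPolynomial ι F} (hP : IsForm P) : eval (0 : ι → F) P = 0 := by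
  obtain ⟨D, hD, hPD⟩ := hP
  have h1 := eval_smul_of_homogeneous hPD 0 (0 : ι → F)
  rw [zero_pow hD.ne', zero_mul] at h1
  have h2 : (fun i => (0 : F) * (0 : ι → F) i) = 0 := funext fun i => zero_mul _
  rwa [h2] at h1

/-- The equations `h(z) = 0`, `y^e = f(z)`. -/
noncomputable def system (h : κ → MvPolynomial α F) (f : ι → MvPolynomial α F) (e : ℕ) :
    κ ⊕ ι → MvPolynomial (α ⊕ ι) F :=
  Sum.elim (fun k => rename Sum.inl (h k)) fun i => X (Sum.inr i) ^ e - rename Sum.inl (f i)

variable {h : κ → MvPolynomial α F} {f : ι → MvPolynomial α F} {e : ℕ}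

theorem system_form (hh : ∀ k, IsForm (h k)) (hf : ∀ i, (f i).IsHomogeneous e) (he : 0 < e) :
    ∀ k, IsForm (system h f e k) := by
  rintro (k | i)
  · obtain ⟨D, hD, h1⟩ := hh k
    exact ⟨D, hD, h1.rename_isHomogeneous⟩
  · refine ⟨e, he, ?_⟩
    have h1 : (X (Sum.inr i) ^ e : MvPolynomial (α ⊕ ι) F).IsHomogeneous e :=
      isHomogeneous_X_pow _ _
    exact h1.sub (hf i).rename_isHomogeneous

theorem system_zero {w : α ⊕ ι → F} (hw : ∀ k, eval w (system h f e k) = 0) :
    (∀ k, eval (fun a => w (Sum.inl a)) (h k) = 0) ∧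
      ∀ i, w (Sum.inr i) ^ e = eval (fun a => w (Sum.inl a)) (f i) := by
  constructor
  · intro k
    have h1 := hw (Sum.inl k)
    simp only [system, Sum.elim_inl, eval_rename] at h1
    exact h1
  · intro i
    have h1 := hw (Sum.inr i)
    simp only [system, Sum.elim_inr, map_sub, map_pow, eval_X, eval_rename] at h1
    exact sub_eq_zero.1 h1

theorem mem_imageOf_of_system {w : α ⊕ ι → F} (hw : ∀ k, eval w (system h f e k) = 0) :
    (fun i => w (Sum.inr i) ^ e) ∈ imageOf h f :=
  ⟨fun a => w (Sum.inl a), (system_zero hw).1, (system_zero hw).2⟩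

/-- A common zero `(z, y)` with `y = 0` is zero. -/
theorem system_eq_zero (he : 0 < e)
    (h0 : ∀ z : α → F, (∀ k, eval z (h k) = 0) → (∀ i, eval z (f i) = 0) → z = 0)
    {w : α ⊕ ι → F} (hw : ∀ k, eval w (system h f e k) = 0) (hy : ∀ i, w (Sum.inr i) ^ e = 0) :
    w = 0 := by
  have h1 := h0 _ (system_zero hw).1 fun i => by rw [← (system_zero hw).2 i, hy i]
  funext t
  rcases t with a | i
  · exact congrFun h1 a
  · exact pow_eq_zero_iff he.ne' |>.1 (hy i)

variable [IsAlgClosed F]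

theorem imageOf_closedCone (hh : ∀ k, IsForm (h k)) (hf : ∀ i, (f i).IsHomogeneous e) (he : 0 < e)
    (h0 : ∀ z : α → F, (∀ k, eval z (h k) = 0) → (∀ i, eval z (f i) = 0) → z = 0) :
    IsClosedCone (imageOf h f) := by
  constructor
  · choose D hD hhD using hh
    exact image_closed h D hD hhD f he hf h0
  · rintro a x ⟨z, hz, hx⟩
    obtain ⟨b, hb⟩ := IsAlgClosed.exists_pow_nat_eq a he
    refine ⟨fun i => b * z i, fun k => ?_, fun i => ?_⟩
    · obtain ⟨D, _, hD⟩ := hh k
      rw [eval_smul_of_homogeneous hD, hz k, mul_zero]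
    · rw [eval_smul_of_homogeneous (hf i), hb, Pi.smul_apply, hx i]
      rfl

theorem imageOf_dimGE (hh : ∀ k, IsForm (h k)) (hf : ∀ i, (f i).IsHomogeneous e) (he : 0 < e)
    (h0 : ∀ z : α → F, (∀ k, eval z (h k) = 0) → (∀ i, eval z (f i) = 0) → z = 0) {d : ℕ}
    (hd : Fintype.card κ + d < Fintype.card α) : DimGE (imageOf h f) d := by
  intro q hq
  have h1 : ∀ k : κ ⊕ Fin d, IsForm (Sum.elim h (fun j => aeval f (q j)) k) := by
    rintro (k | j)
    · exact hh k
    · exact form_comp (hq j) he hf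
  choose D hD hhD using h1
  obtain ⟨z, hz0, hz⟩ := exists_zero _ D hD hhD
    (by rw [Nat.card_eq_fintype_card, Nat.card_eq_fintype_card, Fintype.card_sum, Fintype.card_fin]
        exact hd)
  have hcomp : ∀ P : MvPolynomial ι F, eval z (aeval f P) = eval (fun i => eval z (f i)) P := by
    intro P
    have h8 : ((eval z).comp (aeval f : MvPolynomial ι F →ₐ[F] MvPolynomial α F).toRingHom) =
        eval (fun i => eval z (f i)) := by
      ext i <;> simp
    exact congrArg (fun ψ : MvPolynomial ι F →+* F => ψ P) h8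
  refine ⟨fun i => eval z (f i), ⟨z, fun k => hz (Sum.inl k), fun i => rfl⟩, fun hx => ?_,
    fun j => ?_⟩
  · exact hz0 (h0 z (fun k => hz (Sum.inl k)) fun i => congrFun hx i)
  · rw [← hcomp]
    exact hz (Sum.inr j)

end General

end Pool.Agent.Y129.TA
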