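import Pool.Agent.H88.L.Y129.TA.Approx

/-!
# The approximation lemma: polynomials
-/

open MvPolynomial WittVector

set_option linter.unusedSectionVars false

namespace Pool.Agent.Y129.TA

section Homog

variable {R : Type} [CommRing R] {σ : Type} [Fintype σ]

theorem sum_of_homogeneous {h : MvPolynomial σ R} {d : ℕ} (hh : h.IsHomogeneous d) {α : σ →₀ ℕ}
    (hα : α ∈ h.support) : ∑ i, α i = d := by
  have h2 := hh (mem_support_iff.1 hα)
  rw [← h2, Finsupp.weight_apply, Finsupp.sum_fintype _ _ (by simp)]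
  simp

theorem eval_smul_of_homogeneous {h : MvPolynomial σ R} {d : ℕ} (hh : h.IsHomogeneous d) (a : R)
    (t : σ → R) : eval (fun i => a * t i) h = a ^ d * eval t h := by
  classical
  rw [eval_eq', eval_eq', Finset.mul_sum]
  refine Finset.sum_congr rfl fun α hα => ?_
  have h1 := sum_of_homogeneous hh hα
  have h3 : ∏ i, (a * t i) ^ α i = a ^ d * ∏ i, t i ^ α i := by
    simp_rw [mul_pow]
    rw [Finset.prod_mul_distrib, Finset.prod_pow_eq_pow_sum, h1]
  rw [h3]
  ring

end Homog

variable {p : ℕ} [hp : Fact p.Prime] {K F : Type} [Field K] [Field F] [CharP F p]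

/-- The functions with values in the ring of integers a power `p ^ M` of which is a polynomial. -/
def polyFun (T : Tilting p K F) (σ : Type) : Subring ((σ → T.O) → T.O) where
  carrier := {a | ∃ (M : ℕ) (Q : MvPolynomial σ F), ∀ t, ((a t : T.O) : F) ^ p ^ M =
    eval (fun i => ((t i : T.O) : F)) Q}
  mul_mem' := by
    rintro a b ⟨M, Q, h⟩ ⟨M', Q', h'⟩
    refine ⟨M + M', Q ^ p ^ M' * Q' ^ p ^ M, fun t => ?_⟩
    rw [map_mul, map_pow, map_pow, ← h, ← h', Pi.mul_apply, Subring.coe_mul, mul_pow, pow_add,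
      pow_mul, mul_comm (p ^ M) (p ^ M'), pow_mul (b t : F)]
  one_mem' := ⟨0, 1, fun t => by simp⟩
  add_mem' := by
    rintro a b ⟨M, Q, h⟩ ⟨M', Q', h'⟩
    refine ⟨M + M', Q ^ p ^ M' + Q' ^ p ^ M, fun t => ?_⟩
    rw [map_add, map_pow, map_pow, ← h, ← h', Pi.add_apply, Subring.coe_add, add_pow_char_pow,
      pow_add, pow_mul, mul_comm (p ^ M) (p ^ M'), pow_mul (b t : F)]
  zero_mem' := ⟨0, 0, fun t => by simp⟩
  neg_mem' := by
    rintro a ⟨M, Q, h⟩
    refine ⟨M, C ((-1) ^ p ^ M) * Q, fun t => ?_⟩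
    rw [map_mul, eval_C, ← h, Pi.neg_apply, Subring.coe_neg, neg_pow]

variable (T : Tilting p K F) (σ : Type)

instance perfectPolyFun [IsAlgClosed F] : PerfectRing (polyFun T σ) p := by
  refine ⟨⟨fun a b hab => ?_, fun a => ?_⟩⟩
  · refine Subtype.ext (funext fun t => ?_)
    have h1 := congrArg (fun c : polyFun T σ => (c : (σ → T.O) → T.O) t) hab
    exact frobenius_inj T.O p h1
  · choose b hb using fun t => frob_surj T.toTiltPair ((a : (σ → T.O) → T.O) t)
    obtain ⟨M, Q, h⟩ := a.2
    refine ⟨⟨b, M + 1, Q, fun t => ?_⟩, Subtype.ext (funext fun t => hb t)⟩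
    rw [← h t, ← hb t, pow_succ', pow_mul, Subring.coe_pow]

/-- The constant functions. -/
def constFun : T.O →+* polyFun T σ where
  toFun c := ⟨fun _ => c, 0, C (c : F), fun t => by simp⟩
  map_one' := rfl
  map_mul' _ _ := rfl
  map_zero' := rfl
  map_add' _ _ := rfl

variable {σ}

/-- The value at `t`. -/
def ev (t : σ → T.O) : polyFun T σ →+* T.O :=
  (Pi.evalRingHom (fun _ => T.O) t).comp (polyFun T σ).subtype

variable [Fintype σ]

/-- A monomial. -/
def monFun (α : σ →₀ ℕ) : polyFun T σ :=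
  ⟨fun t => ∏ i, t i ^ α i, 0, monomial α 1, fun t => by
    rw [pow_zero, pow_one, eval_monomial, one_mul, Finsupp.prod_fintype _ _ (by simp)]
    push_cast
    rfl⟩

theorem ev_const (t : σ → T.O) : (ev T t).comp (constFun T σ) = RingHom.id T.O := rfl

theorem ev_mon (t : σ → T.O) (α : σ →₀ ℕ) : ev T t (monFun T α) = ∏ i, t i ^ α i := rfl

/-- The lift of a polynomial. -/
noncomputable def lift (h : MvPolynomial σ K) (H : (σ →₀ ℕ) → WittVector p T.O) :
    WittVector p (polyFun T σ) :=
  ∑ α ∈ h.support, WittVector.map (constFun T σ) (H α) * teichmuller p (monFun T α)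

theorem map_lift (h : MvPolynomial σ K) (H : (σ →₀ ℕ) → WittVector p T.O) (t : σ → T.O) :
    WittVector.map (ev T t) (lift T h H) =
      ∑ α ∈ h.support, H α * teichmuller p (∏ i, t i ^ α i) := by
  rw [lift, map_sum]
  refine Finset.sum_congr rfl fun α _ => ?_
  rw [map_mul, map_teichmuller, ev_mon]
  congr 1

theorem θ_lift (h : MvPolynomial σ K) (H : (σ →₀ ℕ) → WittVector p T.O)
    (hH : ∀ α, T.θ (H α) = coeff α h) (t : σ → T.O) :
    T.θ (WittVector.map (ev T t) (lift T h H)) = eval (fun i => T.sharp (t i)) h := by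
  rw [map_lift, map_sum, eval_eq']
  refine Finset.sum_congr rfl fun α _ => ?_
  rw [map_mul, hH, T.θ_teich]
  congr 1
  push_cast
  rw [map_prod]
  refine Finset.prod_congr rfl fun i _ => ?_
  rw [map_pow]

theorem map_lift_smul {h : MvPolynomial σ K} {d : ℕ} (hh : h.IsHomogeneous d)
    (H : (σ →₀ ℕ) → WittVector p T.O) (a : T.O) (t : σ → T.O) :
    WittVector.map (ev T fun i => a * t i) (lift T h H) =
      teichmuller p (a ^ d) * WittVector.map (ev T t) (lift T h H) := by
  rw [map_lift, map_lift, Finset.mul_sum]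
  refine Finset.sum_congr rfl fun α hα => ?_
  have h1 := sum_of_homogeneous hh hα
  have h3 : ∏ i, (a * t i) ^ α i = a ^ d * ∏ i, t i ^ α i := by
    simp_rw [mul_pow]
    rw [Finset.prod_mul_distrib, Finset.prod_pow_eq_pow_sum, h1]
  rw [h3, map_mul]
  ring

/-- A polynomial of which the values satisfy `Q(a t) = a ^ D Q(t)` may be replaced by its homogeneous
component of degree `D`. -/
theorem eval_component (T : TiltPair p K F) (ϖ : T.O) (hϖ0 : ϖ ≠ 0) (hϖ1 : T.absF ϖ < 1)
    {Q : MvPolynomial σ F} {D : ℕ} {t : σ → F}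
    (h : ∀ a : T.O, eval (fun i => (a : F) * t i) Q = (a : F) ^ D * eval t Q) :
    eval t (homogeneousComponent D Q) = eval t Q := by
  classical
  set N := Q.totalDegree + 1 + D with hN
  let P : Polynomial F := (∑ k ∈ Finset.range (N + 1),
    Polynomial.C (eval t (homogeneousComponent k Q)) * Polynomial.X ^ k) -
      Polynomial.C (eval t Q) * Polynomial.X ^ D
  have hsum : ∑ k ∈ Finset.range (N + 1), homogeneousComponent k Q = Q := by
    conv_rhs => rw [← sum_homogeneousComponent Q]
    refine (Finset.sum_subset (fun k hk => ?_) fun k _ hk => ?_).symm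
    · rw [Finset.mem_range] at hk ⊢
      omega
    · refine homogeneousComponent_eq_zero _ _ ?_
      rw [Finset.mem_range] at hk
      omega
  have hP : ∀ a : T.O, P.eval (a : F) = 0 := by
    intro a
    have h1 : ∑ k ∈ Finset.range (N + 1), eval t (homogeneousComponent k Q) * (a : F) ^ k =
        eval (fun i => (a : F) * t i) Q := by
      conv_rhs => rw [← hsum]
      rw [map_sum]
      refine Finset.sum_congr rfl fun k _ => ?_
      rw [eval_smul_of_homogeneous (homogeneousComponent_isHomogeneous k Q), mul_comm]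
    simp only [P, Polynomial.eval_sub, Polynomial.eval_finsetSum, Polynomial.eval_mul,
      Polynomial.eval_C, Polynomial.eval_pow, Polynomial.eval_X]
    rw [h1, h a]
    ring
  have hP0 : P = 0 := by
    refine Polynomial.eq_zero_of_infinite_isRoot P ?_
    have hinj : Function.Injective fun j : ℕ => ((ϖ : F)) ^ j := by
      intro i j hij
      have h2 : T.absF ϖ ^ i = T.absF ϖ ^ j := by rw [← map_pow, ← map_pow]; exact congrArg T.absF hij
      have h3 : 0 < T.absF ϖ := T.absF.pos fun h => hϖ0 (Subtype.ext h)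
      exact (pow_right_strictAnti₀ h3 hϖ1).injective h2
    refine (Set.infinite_range_of_injective hinj).mono ?_
    rintro _ ⟨j, rfl⟩
    have h4 := hP (ϖ ^ j)
    rw [Subring.coe_pow] at h4
    exact h4
  have h5 := congrArg (fun P : Polynomial F => P.coeff D) hP0
  simp only [P, Polynomial.coeff_sub, Polynomial.finsetSum_coeff, Polynomial.coeff_C_mul,
    Polynomial.coeff_X_pow, Polynomial.coeff_zero] at h5
  have h6 : ∑ k ∈ Finset.range (N + 1), (eval t (homogeneousComponent k Q) *
      if D = k then (1 : F) else 0) = eval t (homogeneousComponent D Q) := by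
    rw [Finset.sum_eq_single D]
    · simp
    · intro k _ hk
      rw [if_neg (Ne.symm hk), mul_zero]
    · intro hk
      rw [Finset.mem_range] at hk
      omega
  rw [h6, if_pos trivial, mul_one] at h5
  exact sub_eq_zero.1 h5

/-- The approximation lemma: for a homogeneous polynomial `h` over `K` and `ε > 0` there is a
homogeneous polynomial `g` over `F` such that `|h(t♯)| ≤ ε` for all zeros `t` of `g` in the unit ball. -/
theorem approx [IsAlgClosed F] (T : Tilting p K F) {h : MvPolynomial σ K} {d : ℕ} (hd : 0 < d)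
    (hh : h.IsHomogeneous d) {ε : ℝ} (hε : 0 < ε) :
    ∃ D, 0 < D ∧ ∃ g : MvPolynomial σ F, g.IsHomogeneous D ∧ ∀ t : σ → F,
      (∀ i, T.absF (t i) ≤ 1) → eval t g = 0 → T.absK (eval (fun i => T.sharp (t i)) h) ≤ ε := by
  classical
  have hpp : 0 < T.absK p := T.absK.pos T.p_ne
  -- the coefficients become integral
  obtain ⟨B, hB⟩ : ∃ B : ℝ, ∀ α ∈ h.support, T.absK (coeff α h) ≤ B :=
    ⟨∑ α ∈ h.support, T.absK (coeff α h), fun α hα =>
      Finset.single_le_sum (f := fun α => T.absK (coeff α h)) (fun α _ => T.absK.nonneg _) hα⟩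
  obtain ⟨m, hm⟩ : ∃ m : ℕ, T.absK p ^ m * max B 1 < 1 := by
    obtain ⟨m, hm⟩ := exists_pow_lt_of_lt_one (show (0 : ℝ) < 1 / max B 1 by positivity) T.p_lt
    refine ⟨m, ?_⟩
    rwa [lt_div_iff₀ (by positivity)] at hm
  let h' : MvPolynomial σ K := C ((p : K) ^ m) * h
  have hh' : h'.IsHomogeneous d := by
    have h1 := (isHomogeneous_C σ ((p : K) ^ m)).mul hh
    rwa [zero_add] at h1
  have hint : ∀ α, T.absK (coeff α h') ≤ 1 := by
    intro α
    rw [coeff_C_mul, map_mul, map_pow]
    by_cases hα : α ∈ h.support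
    · refine (mul_le_mul_of_nonneg_left ((hB α hα).trans (le_max_left B 1))
        (pow_nonneg hpp.le m)).trans hm.le
    · rw [notMem_support_iff.1 hα, map_zero, mul_zero]
      exact zero_le_one
  choose H hH using fun α => T.θ_surj (coeff α h') (hint α)
  obtain ⟨c, hc⟩ := exists_pow_lt_of_lt_one (show 0 < ε * T.absK p ^ m by positivity) T.p_lt
  obtain ⟨ϖ₀, hϖ₀⟩ := T.surj (p : K)
  have hϖa : T.absF ϖ₀ = T.absK p := by rw [← T.abs_sharp, hϖ₀]
  let ϖ : T.O := ⟨ϖ₀, by change T.absF ϖ₀ ≤ 1; rw [hϖa]; exact T.p_lt.le⟩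
  have hϖ : T.sharp ϖ = p := hϖ₀
  -- the chain
  choose next hnext using fun x : WittVector p (polyFun T σ) => Step.exists (constFun T σ ϖ) x
  let Y : ℕ → WittVector p (polyFun T σ) := fun j => next^[j] (lift T h' H)
  have hY : ∀ j, Step (constFun T σ ϖ) (Y j) (Y (j + 1)) := by
    intro j
    change Step _ (next^[j] _) (next^[j + 1] _)
    rw [Function.iterate_succ_apply']
    exact hnext _
  have hYt : ∀ (t : σ → T.O) j, Step ϖ (WittVector.map (ev T t) (Y j))
      (WittVector.map (ev T t) (Y (j + 1))) := fun t j => (hY j).map (ev T t)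
  have hsc : ∀ (a : T.O) (t : σ → T.O) j, WittVector.map (ev T fun i => a * t i) (Y j) =
      teichmuller p (a ^ d) * WittVector.map (ev T t) (Y j) := by
    intro a t j
    induction j with
    | zero => exact map_lift_smul T hh' H a t
    | succ j ih =>
      have h1 := hYt (fun i => a * t i) j
      rw [ih] at h1
      exact h1.unique ((hYt t j).mul (a ^ d))
  obtain ⟨M, Q, hQ⟩ := ((Y c).coeff 0).2
  have hval : ∀ t : σ → T.O, (((WittVector.map (ev T t) (Y c)).coeff 0 : T.O) : F) ^ p ^ M =
      eval (fun i => ((t i : T.O) : F)) Q := fun t => hQ t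
  refine ⟨d * p ^ M, Nat.mul_pos hd (pow_pos hp.out.pos M), homogeneousComponent (d * p ^ M) Q,
    homogeneousComponent_isHomogeneous _ _, fun t ht h0 => ?_⟩
  let t' : σ → T.O := fun i => ⟨t i, ht i⟩
  have hcomp : eval t (homogeneousComponent (d * p ^ M) Q) = eval t Q := by
    refine eval_component T.toTiltPair ϖ (Tilting.ϖ_ne hϖ) (by rw [Tilting.abs_ϖ hϖ]; exact T.p_lt)
      fun a => ?_
    have h1 := hval fun i => a * t' i
    have h2 := hval t'
    rw [hsc a t' c, mul_coeff_zero, teichmuller_coeff_zero, Subring.coe_mul, mul_pow, h2,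
      Subring.coe_pow, ← pow_mul] at h1
    exact h1.symm
  rw [hcomp] at h0
  have h1 : (WittVector.map (ev T t') (Y c)).coeff 0 = 0 := by
    have h2 := hval t'
    have h3 : eval (fun i => ((t' i : T.O) : F)) Q = 0 := h0
    rw [h3] at h2
    exact Subtype.ext (pow_eq_zero_iff (pow_pos hp.out.pos M).ne' |>.1 h2)
  have h2 : T.absK (T.θ (WittVector.map (ev T t') (Y 0))) ≤ T.absK p ^ c := by
    by_contra hlt
    push Not at hlt
    exact Tilting.chain_ne hϖ (Y := fun j => WittVector.map (ev T t') (Y j)) (hYt t') hlt h1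
  have h3 : T.θ (WittVector.map (ev T t') (Y 0)) = eval (fun i => T.sharp (t i)) h' :=
    θ_lift T h' H hH t'
  rw [h3, map_mul, eval_C, map_mul, map_pow] at h2
  have h4 : T.absK p ^ m * T.absK (eval (fun i => T.sharp (t i)) h) ≤ T.absK p ^ m * ε := by
    rw [mul_comm _ ε]
    exact h2.trans hc.le
  exact le_of_mul_le_mul_left h4 (pow_pos hpp m)

end Pool.Agent.Y129.TA
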