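import Pool.Agent.H88.L.Y129.TA.Poly

/-!
# Common zeros of homogeneous polynomials, and an estimate from the Nullstellensatz
-/

open MvPolynomial

set_option linter.unusedSectionVars false

namespace Pool.Agent.Y129.TA

section Zeros

variable {F : Type} [Field F] [IsAlgClosed F] {σ : Type} [Finite σ]

/-- The translation by `x`. -/
noncomputable def translate (x : σ → F) : MvPolynomial σ F ≃ₐ[F] MvPolynomial σ F :=
  AlgEquiv.ofAlgHom (aeval fun i => X i + C (x i)) (aeval fun i => X i - C (x i))
    (by ext i; simp) (by ext i; simp)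

theorem eval_translate (x : σ → F) (f : MvPolynomial σ F) :
    eval 0 (translate x f) = eval x f := by
  have h : ((eval (0 : σ → F)).comp (translate x : MvPolynomial σ F →+* MvPolynomial σ F)) =
      eval x := by
    ext i
    · simp [translate]
    · simp [translate]
  exact congrArg (fun φ : MvPolynomial σ F →+* F => φ f) h

theorem height_vanishing (x : σ → F) :
    (vanishingIdeal F {x} : Ideal (MvPolynomial σ F)).height =
      (vanishingIdeal F {(0 : σ → F)} : Ideal (MvPolynomial σ F)).height := by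
  have h : (vanishingIdeal F {x} : Ideal (MvPolynomial σ F)) =
      (vanishingIdeal F {(0 : σ → F)} : Ideal (MvPolynomial σ F)).comap
        (translate x).toRingEquiv := by
    ext f
    rw [Ideal.mem_comap, mem_vanishingIdeal_singleton_iff, mem_vanishingIdeal_singleton_iff]
    have h1 := eval_translate x f
    rw [aeval_eq_eval, aeval_eq_eval]
    change eval x f = 0 ↔ eval 0 (translate x f) = 0
    rw [h1]
  rw [h, RingEquiv.height_comap]

theorem card_le_height :
    (Nat.card σ : WithBot ℕ∞) ≤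
      ((vanishingIdeal F {(0 : σ → F)} : Ideal (MvPolynomial σ F)).height : WithBot ℕ∞) := by
  have h := MvPolynomial.ringKrullDim_of_isNoetherianRing (R := F) (ι := σ)
  rw [ringKrullDim_eq_zero_of_field, zero_add] at h
  rw [← h, ringKrullDim_le_iff_isMaximal_height_le]
  intro M hM
  obtain ⟨x, rfl⟩ := isMaximal_iff_eq_vanishingIdeal_singleton.1 hM
  rw [height_vanishing x]

/-- Fewer homogeneous polynomials of positive degree than variables have a common nonzero zero. -/
theorem exists_zero {κ : Type} [Finite κ] (g : κ → MvPolynomial σ F) (D : κ → ℕ)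
    (hD : ∀ k, 0 < D k) (hg : ∀ k, (g k).IsHomogeneous (D k)) (hc : Nat.card κ < Nat.card σ) :
    ∃ w : σ → F, w ≠ 0 ∧ ∀ k, eval w (g k) = 0 := by
  classical
  by_contra hno
  push Not at hno
  have hg0 : ∀ k, eval (0 : σ → F) (g k) = 0 := by
    intro k
    have : Fintype σ := Fintype.ofFinite σ
    have h1 := eval_smul_of_homogeneous (hg k) 0 (0 : σ → F)
    rw [zero_pow (hD k).ne', zero_mul] at h1
    have h2 : (fun i => (0 : F) * (0 : σ → F) i) = 0 := funext fun i => zero_mul _
    rwa [h2] at h1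
  set I : Ideal (MvPolynomial σ F) := Ideal.span (Set.range g) with hI
  have hzero : zeroLocus F I = {(0 : σ → F)} := by
    ext w
    rw [Set.mem_singleton_iff, mem_zeroLocus_iff]
    constructor
    · intro h
      by_contra hw
      obtain ⟨k, hk⟩ := hno w hw
      refine hk ?_
      have h1 := h (g k) (Ideal.subset_span ⟨k, rfl⟩)
      rwa [aeval_eq_eval] at h1
    · rintro rfl f hf
      rw [aeval_eq_eval]
      have h2 : I ≤ RingHom.ker (eval (0 : σ → F)) := by
        rw [hI, Ideal.span_le]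
        rintro _ ⟨k, rfl⟩
        exact hg0 k
      exact h2 hf
  have hrad : I.radical = vanishingIdeal F {(0 : σ → F)} := by
    rw [← vanishingIdeal_zeroLocus_eq_radical (K := F), hzero]
  have hmax : (vanishingIdeal F {(0 : σ → F)} : Ideal (MvPolynomial σ F)).IsMaximal :=
    isMaximal_iff_eq_vanishingIdeal_singleton.2 ⟨0, rfl⟩
  have hmin : (vanishingIdeal F {(0 : σ → F)} : Ideal (MvPolynomial σ F)) ∈
      (Ideal.span (Set.range g)).minimalPrimes := by
    refine ⟨⟨hmax.isPrime, ?_⟩, fun P hP _ => ?_⟩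
    · rw [← hrad, ← hI]
      exact Ideal.le_radical
    · rw [← hrad]
      exact hP.1.radical_le_iff.2 hP.2
  have h1 := Ideal.height_le_card_of_mem_minimalPrimes_span (Set.finite_range g) hmin
  have h2 : (Set.range g).ncard ≤ Nat.card κ := by
    rw [← Set.image_univ]
    refine (Set.ncard_image_le Set.finite_univ).trans ?_
    rw [Set.ncard_univ]
  have h3 := card_le_height (F := F) (σ := σ)
  have h4 : (Nat.card σ : ℕ∞) ≤ (Nat.card κ : ℕ∞) := by
    have h5 : ((vanishingIdeal F {(0 : σ → F)} : Ideal (MvPolynomial σ F)).height) ≤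
        (Nat.card κ : ℕ∞) := h1.trans (by exact_mod_cast h2)
    have h6 : (Nat.card σ : ℕ∞) ≤
        (vanishingIdeal F {(0 : σ → F)} : Ideal (MvPolynomial σ F)).height := by
      exact_mod_cast h3
    exact h6.trans h5
  exact absurd (by exact_mod_cast h4 : Nat.card σ ≤ Nat.card κ) (not_le.2 hc)

end Zeros

section Estimate

variable {K : Type} [Field K] [IsAlgClosed K] {σ : Type} [Fintype σ]

theorem ultra_sum {a : AbsoluteValue K ℝ} (ha : ∀ x y, a (x + y) ≤ max (a x) (a y)) {ι : Type}
    (s : Finset ι) (f : ι → K) {B : ℝ} (hB : 0 ≤ B) (h : ∀ i ∈ s, a (f i) ≤ B) :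
    a (∑ i ∈ s, f i) ≤ B := by
  classical
  induction s using Finset.induction_on with
  | empty => rwa [Finset.sum_empty, AbsoluteValue.map_zero]
  | insert i s hi ih =>
    rw [Finset.sum_insert hi]
    exact (ha _ _).trans (max_le (h i (Finset.mem_insert_self i s))
      (ih fun j hj => h j (Finset.mem_insert_of_mem hj)))

/-- A polynomial is bounded on the unit ball. -/
theorem bounded {a : AbsoluteValue K ℝ} (ha : ∀ x y, a (x + y) ≤ max (a x) (a y))
    (f : MvPolynomial σ K) : ∃ B : ℝ, 0 < B ∧ ∀ v : σ → K, (∀ i, a (v i) ≤ 1) →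
      a (eval v f) ≤ B := by
  classical
  refine ⟨1 + ∑ α ∈ f.support, a (coeff α f), ?_, fun v hv => ?_⟩
  · have h : 0 ≤ ∑ α ∈ f.support, a (coeff α f) := Finset.sum_nonneg fun α _ => a.nonneg _
    linarith
  · have h0 : 0 ≤ ∑ α ∈ f.support, a (coeff α f) := Finset.sum_nonneg fun α _ => a.nonneg _
    rw [eval_eq']
    refine ultra_sum ha _ _ (by linarith) fun α hα => ?_
    rw [map_mul, map_prod]
    have h1 : ∏ i, a (v i ^ α i) ≤ 1 := by
      refine Finset.prod_le_one (fun i _ => a.nonneg _) fun i _ => ?_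
      rw [map_pow]
      exact pow_le_one₀ (a.nonneg _) (hv i)
    have h2 : a (coeff α f) ≤ ∑ α ∈ f.support, a (coeff α f) :=
      Finset.single_le_sum (f := fun α => a (coeff α f)) (fun α _ => a.nonneg _) hα
    have h3 : a (coeff α f) * ∏ i, a (v i ^ α i) ≤ a (coeff α f) :=
      mul_le_of_le_one_right (a.nonneg _) h1
    linarith

/-- If `Q` vanishes at all common zeros of the `E k`, then `Q` is small where all `E k` are small. -/
theorem small {a : AbsoluteValue K ℝ} (ha : ∀ x y, a (x + y) ≤ max (a x) (a y)) {κ : Type}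
    [Fintype κ] (E : κ → MvPolynomial σ K) (Q : MvPolynomial σ K)
    (hQ : ∀ v, (∀ k, eval v (E k) = 0) → eval v Q = 0) {η : ℝ} (hη : 0 < η) :
    ∃ δ : ℝ, 0 < δ ∧ ∀ v : σ → K, (∀ i, a (v i) ≤ 1) → (∀ k, a (eval v (E k)) ≤ δ) →
      a (eval v Q) ≤ η := by
  classical
  have h1 : Q ∈ (Ideal.span (Set.range E)).radical := by
    rw [← vanishingIdeal_zeroLocus_eq_radical (K := K), mem_vanishingIdeal_iff]
    intro v hv
    rw [aeval_eq_eval]
    refine hQ v fun k => ?_
    have h2 := (mem_zeroLocus_iff.1 hv) (E k) (Ideal.subset_span ⟨k, rfl⟩)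
    rwa [aeval_eq_eval] at h2
  obtain ⟨M, hM⟩ := h1
  have hM1 : Q ^ (M + 1) ∈ Ideal.span (Set.range E) := by
    rw [pow_succ]
    exact Ideal.mul_mem_right _ _ hM
  obtain ⟨c, hc⟩ := (Ideal.mem_span_range_iff_exists_fun).1 hM1
  choose B hB0 hB using fun k => bounded ha (c k)
  obtain ⟨B', hB', hB''⟩ : ∃ B' : ℝ, 0 < B' ∧ ∀ k, B k ≤ B' :=
    ⟨1 + ∑ k, B k, by
      have : 0 ≤ ∑ k, B k := Finset.sum_nonneg fun k _ => (hB0 k).le
      linarith, fun k => by
      have h := Finset.single_le_sum (f := B) (fun k _ => (hB0 k).le) (Finset.mem_univ k)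
      linarith⟩
  refine ⟨η ^ (M + 1) / B', by positivity, fun v hv hE => ?_⟩
  have h3 : a (eval v Q) ^ (M + 1) ≤ B' * (η ^ (M + 1) / B') := by
    rw [← map_pow, ← map_pow, ← hc, map_sum]
    refine ultra_sum ha _ _ (by positivity) fun k _ => ?_
    rw [map_mul, map_mul]
    exact mul_le_mul ((hB k v hv).trans (hB'' k)) (hE k) (a.nonneg _) hB'.le
  have h4 : B' * (η ^ (M + 1) / B') = η ^ (M + 1) := by field_simp
  rw [h4] at h3
  exact le_of_pow_le_pow_left₀ (Nat.succ_ne_zero M) hη.le h3

end Estimate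

end Pool.Agent.Y129.TA
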